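import Mathlib

/-!
Location lemma, part 1: one component, and a finite union of components.
-/
namespace Pool.Agent.Helper18.Loc

open Finset

/-- two point (or one point) mass with barycentre the midpoint -/
lemma two_pt {S : Finset ℕ} (p : ℕ → ℝ) (a b : ℝ) (i1 i2 : ℕ) (h1 : i1 ∈ S) (h2 : i2 ∈ S)
    (x y : ℝ) (hx : 0 ≤ x) (hy : 0 ≤ y) (hxy : x + y = b - a)
    (hj : ∀ j ∈ S, min (2 * (p j - a)) (2 * (b - p j)) ≤
      x * (1 - 2 * |p i1 - p j|) + y * (1 - 2 * |p i2 - p j|)) :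
    ∃ μ : ℕ → ℝ, (∀ i, 0 ≤ μ i) ∧ (∀ i, i ∉ S → μ i = 0) ∧ ∑ i ∈ S, μ i = b - a ∧
      ∀ j ∈ S, min (2 * (p j - a)) (2 * (b - p j)) ≤ ∑ i ∈ S, μ i * (1 - 2 * |p i - p j|) := by
  refine ⟨fun i => (if i = i1 then x else 0) + (if i = i2 then y else 0), ?_, ?_, ?_, ?_⟩
  · intro i; positivity
  · intro i hi
    have e1 : i ≠ i1 := fun h => hi (h ▸ h1)
    have e2 : i ≠ i2 := fun h => hi (h ▸ h2)
    simp [e1, e2]
  · rw [sum_add_distrib]
    simp [h1, h2, hxy]
  · intro j hjS
    have : ∑ i ∈ S, ((if i = i1 then x else 0) + (if i = i2 then y else 0)) *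
        (1 - 2 * |p i - p j|) = x * (1 - 2 * |p i1 - p j|) + y * (1 - 2 * |p i2 - p j|) := by
      simp only [add_mul, sum_add_distrib, ite_mul, zero_mul, sum_ite_eq', h1, h2, if_true]
    rw [this]
    exact hj j hjS

/-- one component -/
lemma comp_claim {S : Finset ℕ} (hS : S.Nonempty) (p : ℕ → ℝ) (a b : ℝ) (hab : a ≤ b)
    (hab1 : b ≤ a + 1) :
    ∃ μ : ℕ → ℝ, (∀ i, 0 ≤ μ i) ∧ (∀ i, i ∉ S → μ i = 0) ∧ ∑ i ∈ S, μ i = b - a ∧
      ∀ j ∈ S, min (2 * (p j - a)) (2 * (b - p j)) ≤ ∑ i ∈ S, μ i * (1 - 2 * |p i - p j|) := by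
  classical
  by_cases hL : ∃ i ∈ S, p i ≤ (a + b) / 2
  · by_cases hR : ∃ i ∈ S, (a + b) / 2 < p i
    · -- both sides
      have hLn : (S.filter (fun i => p i ≤ (a + b) / 2)).Nonempty := by
        obtain ⟨i, hi, h⟩ := hL
        exact ⟨i, mem_filter.2 ⟨hi, h⟩⟩
      have hRn : (S.filter (fun i => (a + b) / 2 < p i)).Nonempty := by
        obtain ⟨i, hi, h⟩ := hR
        exact ⟨i, mem_filter.2 ⟨hi, h⟩⟩
      obtain ⟨i1, hi1, hmax⟩ := exists_max_image _ p hLn
      obtain ⟨i2, hi2, hmin⟩ := exists_min_image _ p hRn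
      rw [mem_filter] at hi1 hi2
      have hα : 0 ≤ (a + b) / 2 - p i1 := by linarith [hi1.2]
      have hβ : 0 < p i2 - (a + b) / 2 := by linarith [hi2.2]
      set α := (a + b) / 2 - p i1 with hαd
      set β := p i2 - (a + b) / 2 with hβd
      have hαβ : 0 < α + β := by linarith
      have hba : 0 ≤ b - a := by linarith
      set x := (b - a) * β / (α + β) with hxd
      set y := (b - a) * α / (α + β) with hyd
      have hx : 0 ≤ x := by positivity
      have hy : 0 ≤ y := by positivity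
      have hxy : x + y = b - a := by
        rw [hxd, hyd]; field_simp; ring
      have hbary : x * p i1 + y * p i2 = (b - a) * ((a + b) / 2) := by
        have e1 : p i1 = (a + b) / 2 - α := by rw [hαd]; ring
        have e2 : p i2 = (a + b) / 2 + β := by rw [hβd]; ring
        rw [e1, e2, hxd, hyd]; field_simp; ring
      refine two_pt p a b i1 i2 hi1.1 hi2.1 x y hx hy hxy ?_
      intro j hj
      by_cases hjc : p j ≤ (a + b) / 2
      · have h1 : p j ≤ p i1 := hmax j (mem_filter.2 ⟨hj, hjc⟩)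
        have h2 : p j ≤ p i2 := by linarith
        rw [abs_of_nonneg (by linarith), abs_of_nonneg (by linarith)]
        refine (min_le_left _ _).trans ?_
        have e : x * (1 - 2 * (p i1 - p j)) + y * (1 - 2 * (p i2 - p j)) =
            (x + y) * (1 + 2 * p j) - 2 * (x * p i1 + y * p i2) := by ring
        rw [e, hxy, hbary]
        nlinarith [mul_nonneg (sub_nonneg.2 hjc) (sub_nonneg.2 hab1)]
      · have hjc' : (a + b) / 2 < p j := not_le.1 hjc
        have h2 : p i2 ≤ p j := hmin j (mem_filter.2 ⟨hj, hjc'⟩)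
        have h1 : p i1 ≤ p j := by linarith
        rw [abs_of_nonpos (by linarith), abs_of_nonpos (by linarith)]
        refine (min_le_right _ _).trans ?_
        have e : x * (1 - 2 * -(p i1 - p j)) + y * (1 - 2 * -(p i2 - p j)) =
            (x + y) * (1 - 2 * p j) + 2 * (x * p i1 + y * p i2) := by ring
        rw [e, hxy, hbary]
        nlinarith [mul_nonneg (sub_nonneg.2 hjc'.le) (sub_nonneg.2 hab1)]
    · -- all left
      push Not at hR
      obtain ⟨i1, hi1, hmax⟩ := exists_max_image S p hS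
      refine two_pt p a b i1 i1 hi1 hi1 (b - a) 0 (by linarith) le_rfl (by ring) ?_
      intro j hj
      have h1 := hmax j hj
      have h2 := hR i1 hi1
      refine (min_le_left _ _).trans ?_
      rw [abs_of_nonneg (by linarith)]
      nlinarith [mul_nonneg (sub_nonneg.2 h1) (sub_nonneg.2 hab1)]
  · -- all right
    push Not at hL
    obtain ⟨i1, hi1, hmin⟩ := exists_min_image S p hS
    refine two_pt p a b i1 i1 hi1 hi1 (b - a) 0 (by linarith) le_rfl (by ring) ?_
    intro j hj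
    have h1 := hmin j hj
    have h2 := hL i1 hi1
    refine (min_le_right _ _).trans ?_
    rw [abs_of_nonpos (by linarith)]
    nlinarith [mul_nonneg (sub_nonneg.2 h1) (sub_nonneg.2 hab1)]

/-- zeros around a point where a 2-Lipschitz function is positive -/
lemma zeros (f : ℝ → ℝ) (hf : ∀ x y, f x ≤ f y + 2 * |x - y|) (α β p : ℝ) (hα : f α = 0)
    (hβ : f β = 0) (hp : α ≤ p) (hp' : p ≤ β) (hpos : 0 < f p) :
    ∃ a b, α ≤ a ∧ a ≤ p ∧ p ≤ b ∧ b ≤ β ∧ f a = 0 ∧ f b = 0 ∧ ∀ t, a < t → t < b → 0 < f t := by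
  have hcont : Continuous f := by
    refine (LipschitzWith.of_le_add_mul (K := 2) ?_).continuous
    intro x y
    rw [Real.dist_eq]
    exact hf x y
  -- the last zero before p
  set A : Set ℝ := Set.Icc α p ∩ f ⁻¹' {0} with hA
  have hAc : IsCompact A := isCompact_Icc.inter_right (isClosed_singleton.preimage hcont)
  have hAn : A.Nonempty := ⟨α, ⟨le_rfl, hp⟩, hα⟩
  set B : Set ℝ := Set.Icc p β ∩ f ⁻¹' {0} with hB
  have hBc : IsCompact B := isCompact_Icc.inter_right (isClosed_singleton.preimage hcont)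
  have hBn : B.Nonempty := ⟨β, ⟨hp', le_rfl⟩, hβ⟩
  have ha := hAc.sSup_mem hAn
  have hb := hBc.sInf_mem hBn
  refine ⟨sSup A, sInf B, ha.1.1, ha.1.2, hb.1.1, hb.1.2, ha.2, hb.2, ?_⟩
  intro t h1 h2
  by_contra hneg
  push Not at hneg
  rcases le_total t p with htp | htp
  · -- zero in [t,p]
    have hmem : (0 : ℝ) ∈ Set.Icc (f t) (f p) := ⟨hneg, hpos.le⟩
    obtain ⟨u, hu, hu0⟩ := intermediate_value_Icc htp hcont.continuousOn hmem
    have : u ≤ sSup A := by
      refine le_csSup hAc.bddAbove ⟨⟨?_, hu.2⟩, hu0⟩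
      linarith [ha.1.1, hu.1]
    linarith [hu.1]
  · have hmem : (0 : ℝ) ∈ Set.Icc (f t) (f p) := ⟨hneg, hpos.le⟩
    obtain ⟨u, hu, hu0⟩ := intermediate_value_Icc' htp hcont.continuousOn hmem
    have : sInf B ≤ u := by
      refine csInf_le hBc.bddBelow ⟨⟨hu.1, ?_⟩, hu0⟩
      linarith [hb.1.2, hu.2]
    linarith [hu.2]

/-- zeros around a point where `s f` is positive, `s = ± 1` -/
lemma zeros' (f : ℝ → ℝ) (hf : ∀ x y, f x ≤ f y + 2 * |x - y|) (α β p s : ℝ)
    (hs : s = 1 ∨ s = -1) (hα : f α = 0)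
    (hβ : f β = 0) (hp : α ≤ p) (hp' : p ≤ β) (hpos : 0 < s * f p) :
    ∃ a b, α ≤ a ∧ a ≤ p ∧ p ≤ b ∧ b ≤ β ∧ f a = 0 ∧ f b = 0 ∧
      ∀ t, a < t → t < b → 0 < s * f t := by
  rcases hs with rfl | rfl
  · simp only [one_mul] at hpos ⊢
    exact zeros f hf α β p hα hβ hp hp' hpos
  · have hf' : ∀ x y, -1 * f x ≤ -1 * f y + 2 * |x - y| := by
      intro x y
      have := hf y x
      rw [abs_sub_comm] at this
      linarith
    obtain ⟨a, b, h1, h2, h3, h4, h5, h6, h7⟩ :=
      zeros (fun x => -1 * f x) hf' α β p (by simp [hα]) (by simp [hβ]) hp hp' hpos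
    exact ⟨a, b, h1, h2, h3, h4, by simpa using h5, by simpa using h6, h7⟩

/-- a finite union of components -/
lemma union_claim (f : ℝ → ℝ) (hf : ∀ x y, f x ≤ f y + 2 * |x - y|) (p s : ℕ → ℝ)
    (k : ℕ → ℕ → ℝ) (hk0 : ∀ i j, 0 ≤ k i j) (β α0 : ℝ) (hα0 : β ≤ α0 + 1) (hβ : f β = 0) :
    ∀ (n : ℕ) (S : Finset ℕ) (α : ℝ), S.card ≤ n → α0 ≤ α → α ≤ β → f α = 0 →
      (∀ i ∈ S, s i = 1 ∨ s i = -1) → (∀ i ∈ S, α ≤ p i ∧ p i ≤ β) →
      (∀ i ∈ S, ∀ j ∈ S, s i = s j → 1 - 2 * |p i - p j| ≤ k i j) →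
      ∃ μ : ℕ → ℝ, (∀ i, 0 ≤ μ i) ∧ (∀ i, i ∉ S → μ i = 0) ∧ ∑ i ∈ S, μ i ≤ β - α ∧
        ∀ j ∈ S, s j * f (p j) ≤ ∑ i ∈ S, μ i * k i j := by
  classical
  intro n
  induction n with
  | zero =>
    intro S α hn _ hαβ _ _ _ _
    have : S = ∅ := by simpa using hn
    subst this
    exact ⟨0, by simp, by simp, by simp; linarith, by simp⟩
  | succ n ih =>
    intro S α hn h0 hαβ hα hs hp hk
    by_cases hrel : ∃ i ∈ S, 0 < s i * f (p i)
    swap
    · push Not at hrel
      refine ⟨0, by simp, by simp, by simp; linarith, ?_⟩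
      intro j hj
      simpa using hrel j hj
    have hRn : (S.filter (fun i => 0 < s i * f (p i))).Nonempty := by
      obtain ⟨i, hi, h⟩ := hrel
      exact ⟨i, mem_filter.2 ⟨hi, h⟩⟩
    obtain ⟨i0, hi0, hmin⟩ := exists_min_image _ p hRn
    rw [mem_filter] at hi0
    obtain ⟨hi0S, hi0pos⟩ := hi0
    obtain ⟨a, b, ha1, ha2, hb1, hb2, hfa, hfb, hpos⟩ :=
      zeros' f hf α β (p i0) (s i0) (hs i0 hi0S) hα hβ (hp i0 hi0S).1 (hp i0 hi0S).2 hi0pos
    have ha3 : a < p i0 := by
      rcases ha2.lt_or_eq with h | h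
      · exact h
      · rw [← h, hfa] at hi0pos; simp at hi0pos
    have hb3 : p i0 < b := by
      rcases hb1.lt_or_eq with h | h
      · exact h
      · rw [h, hfb] at hi0pos; simp at hi0pos
    -- S1 = relevant points in (a,b); S2 = points ≥ b
    set S1 := S.filter (fun i => 0 < s i * f (p i) ∧ p i < b) with hS1
    set S2 := S.filter (fun i => b ≤ p i) with hS2
    have hi0S1 : i0 ∈ S1 := mem_filter.2 ⟨hi0S, hi0pos, hb3⟩
    have hi0S2 : i0 ∉ S2 := by
      intro h
      have := (mem_filter.1 h).2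
      linarith
    have hS2S : S2 ⊆ S := filter_subset _ _
    have hS1S : S1 ⊆ S := filter_subset _ _
    have hcard : S2.card ≤ n := by
      have : S2.card < S.card := card_lt_card ⟨hS2S, fun h => hi0S2 (h hi0S)⟩
      omega
    obtain ⟨μ2, hμ20, hμ2S, hμ2sum, hμ2⟩ := ih S2 b hcard (by linarith) hb2 hfb
      (fun i hi => hs i (hS2S hi)) (fun i hi => ⟨(mem_filter.1 hi).2, (hp i (hS2S hi)).2⟩)
      (fun i hi j hj => hk i (hS2S hi) j (hS2S hj))
    obtain ⟨μ1, hμ10, hμ1S, hμ1sum, hμ1⟩ := comp_claim (S := S1) ⟨i0, hi0S1⟩ p a b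
      (by linarith) (by linarith)
    -- all points of S1 have the sign of i0
    have hsign : ∀ i ∈ S1, s i = s i0 := by
      intro i hi
      obtain ⟨hiS, hipos, hib⟩ := mem_filter.1 hi
      have hai : a < p i := by
        have := hmin i (mem_filter.2 ⟨hiS, hipos⟩)
        linarith
      have h2 := hpos (p i) hai hib
      rcases hs i hiS with h | h <;> rcases hs i0 hi0S with h' | h' <;>
        rw [h] at hipos <;> rw [h'] at h2 <;> rw [h, h'] <;> exfalso <;> linarith
    have hsum : ∀ g : ℕ → ℝ, ∑ i ∈ S, (μ1 i + μ2 i) * g i =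
        ∑ i ∈ S1, μ1 i * g i + ∑ i ∈ S2, μ2 i * g i := by
      intro g
      rw [sum_subset hS1S (f := fun i => μ1 i * g i) (fun i _ hi => by simp [hμ1S i hi]),
        sum_subset hS2S (f := fun i => μ2 i * g i) (fun i _ hi => by simp [hμ2S i hi]),
        ← sum_add_distrib]
      exact sum_congr rfl fun i _ => by ring
    have hnn1 : ∀ j, 0 ≤ ∑ i ∈ S1, μ1 i * k i j := fun j =>
      sum_nonneg fun i _ => mul_nonneg (hμ10 i) (hk0 i j)
    have hnn2 : ∀ j, 0 ≤ ∑ i ∈ S2, μ2 i * k i j := fun j =>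
      sum_nonneg fun i _ => mul_nonneg (hμ20 i) (hk0 i j)
    refine ⟨fun i => μ1 i + μ2 i, fun i => add_nonneg (hμ10 i) (hμ20 i), ?_, ?_, ?_⟩
    · intro i hi
      change μ1 i + μ2 i = 0
      rw [hμ1S i (fun h => hi (hS1S h)), hμ2S i (fun h => hi (hS2S h)), add_zero]
    · have := hsum (fun _ => 1)
      simp only [mul_one] at this
      rw [this, hμ1sum]
      linarith
    · intro j hj
      rw [hsum (fun i => k i j)]
      by_cases hjr : 0 < s j * f (p j)
      · by_cases hjb : p j < b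
        · have hjS1 : j ∈ S1 := mem_filter.2 ⟨hj, hjr, hjb⟩
          have haj : a ≤ p j := by
            have := hmin j (mem_filter.2 ⟨hj, hjr⟩)
            linarith
          have h1 := hμ1 j hjS1
          have h2 : ∑ i ∈ S1, μ1 i * (1 - 2 * |p i - p j|) ≤ ∑ i ∈ S1, μ1 i * k i j := by
            refine sum_le_sum fun i hi => mul_le_mul_of_nonneg_left ?_ (hμ10 i)
            exact hk i (hS1S hi) j hj ((hsign i hi).trans (hsign j hjS1).symm)
          have h3 : s j * f (p j) ≤ min (2 * (p j - a)) (2 * (b - p j)) := by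
            have e1 := hf (p j) a
            have e2 := hf (p j) b
            have e3 := hf a (p j)
            have e4 := hf b (p j)
            rw [hfa] at e1 e3
            rw [hfb] at e2 e4
            rw [abs_of_nonneg (by linarith)] at e1
            rw [abs_of_nonpos (by linarith)] at e2 e3
            rw [abs_of_nonneg (by linarith)] at e4
            refine le_min ?_ ?_ <;> rcases hs j hj with h | h <;> rw [h] <;> linarith
          linarith [hnn2 j]
        · have hjS2 : j ∈ S2 := mem_filter.2 ⟨hj, not_lt.1 hjb⟩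
          linarith [hμ2 j hjS2, hnn1 j]
      · linarith [hnn1 j, hnn2 j]

end Pool.Agent.Helper18.Loc
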