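import Mathlib
import Pool.Agent.Helper46.Dense.Stmts

/-!
Location lemma, part 3: antiperiodic extension of the sequences.
-/
namespace Pool.Agent.Helper18.Loc

open Finset Pool.Agent.Helper46.Dense

lemma step_cases {E : ℕ} (hE : 0 < E) (n : ℕ) :
    (n % E + 1 < E ∧ (n + 1) % E = n % E + 1 ∧ (n + 1) / E = n / E) ∨
      (n % E + 1 = E ∧ (n + 1) % E = 0 ∧ (n + 1) / E = n / E + 1) := by
  have h1 := Nat.mod_lt n hE
  have h2 := Nat.div_add_mod n E
  rcases (Nat.succ_le_iff.2 h1).lt_or_eq with h | h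
  · left
    refine ⟨h, ?_, ?_⟩
    · rw [Nat.add_mod, Nat.mod_eq_of_lt (a := 1) (by omega)]
      exact Nat.mod_eq_of_lt h
    · rw [Nat.add_div hE, Nat.mod_eq_of_lt (a := 1) (by omega), if_neg (by omega),
        Nat.div_eq_of_lt (a := 1) (by omega), add_zero, add_zero]
  · right
    have h3 : n + 1 = E * (n / E + 1) := by
      rw [Nat.mul_add, mul_one]
      omega
    refine ⟨h, ?_, ?_⟩
    · rw [h3]; exact Nat.mul_mod_right _ _
    · conv_lhs => rw [h3]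
      exact Nat.mul_div_cancel_left _ hE

noncomputable def w (E : ℕ) (m : ℕ → ℝ) (n : ℕ) : ℝ := (m (n % E) + m ((n + 1) % E)) / 2

noncomputable def P (E : ℕ) (m : ℕ → ℝ) (n : ℕ) : ℝ := pos m (n % E) + ((n / E : ℕ) : ℝ)

noncomputable def sg (E : ℕ) (n : ℕ) : ℝ := (-1) ^ (n / E)

noncomputable def Ye (E : ℕ) (Y : ℕ → ℝ) (n : ℕ) : ℝ := sg E n * Y (n % E)

noncomputable def F (E : ℕ) (m Y : ℕ → ℝ) (n : ℕ) : ℝ := sg E n * corr E m Y (n % E)

lemma sg_cases (E n : ℕ) : sg E n = 1 ∨ sg E n = -1 := neg_one_pow_eq_or ℝ _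

lemma w_nonneg {E : ℕ} {m : ℕ → ℝ} (hm : ∀ c, 0 ≤ m c) (n : ℕ) : 0 ≤ w E m n := by
  unfold w
  linarith [hm (n % E), hm ((n + 1) % E)]

lemma Ye_succ {E : ℕ} (hE : 0 < E) {Y : ℕ → ℝ} (hY : Y E = - Y 0) (n : ℕ) :
    Ye E Y (n + 1) = sg E n * Y (n % E + 1) := by
  unfold Ye sg
  rcases step_cases hE n with ⟨h1, h2, h3⟩ | ⟨h1, h2, h3⟩
  · rw [h2, h3]
  · rw [h2, h3, h1, hY, pow_succ]; ring

lemma P_succ {E : ℕ} (hE : 0 < E) {m : ℕ → ℝ} (hm1 : ∑ c ∈ range E, m c = 1) (n : ℕ) :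
    P E m (n + 1) = P E m n + w E m n := by
  unfold P w
  rcases step_cases hE n with ⟨h1, h2, h3⟩ | ⟨h1, h2, h3⟩
  · rw [h2, h3]
    unfold pos
    rw [sum_range_succ]
    ring
  · rw [h2, h3]
    unfold pos
    have : ∑ i ∈ range (n % E), m i + m (n % E) = 1 := by
      rw [← sum_range_succ, h1, hm1]
    simp only [range_zero, sum_empty]
    push_cast
    linarith

lemma F_succ {E : ℕ} (hE : 0 < E) {m Y : ℕ → ℝ}
    (hY : Y E = - Y 0) (n : ℕ) :
    F E m Y (n + 1) = F E m Y n + 2 * Ye E Y (n + 1) * w E m n := by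
  rw [Ye_succ hE hY]
  unfold F w
  rcases step_cases hE n with ⟨h1, h2, h3⟩ | ⟨h1, h2, h3⟩
  · have hs : sg E (n + 1) = sg E n := by unfold sg; rw [h3]
    rw [hs, h2]
    unfold corr
    rw [sum_eq_sum_Ico_succ_bot h1, sum_range_succ]
    ring
  · have hs : sg E (n + 1) = - sg E n := by unfold sg; rw [h3, pow_succ]; ring
    rw [hs, h2]
    unfold corr
    have e1 : ∑ c ∈ range (n % E), m c * ((Y c + Y (c + 1)) / 2) +
        m (n % E) * ((Y (n % E) + Y (n % E + 1)) / 2) =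
        ∑ c ∈ range E, m c * ((Y c + Y (c + 1)) / 2) := by
      rw [← sum_range_succ (fun c => m c * ((Y c + Y (c + 1)) / 2)), h1]
    have e2 : ∑ c ∈ range E, m c * ((Y c + Y (c + 1)) / 2) =
        m 0 * ((Y 0 + Y (0 + 1)) / 2) + ∑ c ∈ Ico (0 + 1) E, m c * ((Y c + Y (c + 1)) / 2) := by
      rw [range_eq_Ico, sum_eq_sum_Ico_succ_bot hE]
    have e3 : ∑ c ∈ Ico (n % E + 1) E, m c * ((Y c + Y (c + 1)) / 2) = 0 := by
      rw [h1]; simp
    have e4 : Y (n % E + 1) = - Y 0 := by rw [h1, hY]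
    rw [e3]
    have e5 : ∑ c ∈ Ico (0 + 1) E, m c * ((Y c + Y (c + 1)) / 2) =
        ∑ c ∈ range (n % E), m c * ((Y c + Y (c + 1)) / 2) +
        m (n % E) * ((Y (n % E) + Y (n % E + 1)) / 2) - m 0 * ((Y 0 + Y (0 + 1)) / 2) := by
      rw [e1, e2]; ring
    rw [e5, e4]
    simp only [range_zero, sum_empty]
    ring

lemma div_add_E {E : ℕ} (hE : 0 < E) (n : ℕ) : (n + E) / E = n / E + 1 :=
  Nat.add_div_right n hE

lemma sg_add {E : ℕ} (hE : 0 < E) (n : ℕ) : sg E (n + E) = - sg E n := by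
  unfold sg; rw [div_add_E hE, pow_succ]; ring

lemma P_add {E : ℕ} (hE : 0 < E) (m : ℕ → ℝ) (n : ℕ) : P E m (n + E) = P E m n + 1 := by
  unfold P; rw [div_add_E hE, Nat.add_mod_right]; push_cast; ring

lemma F_add {E : ℕ} (hE : 0 < E) (m Y : ℕ → ℝ) (n : ℕ) : F E m Y (n + E) = - F E m Y n := by
  unfold F; rw [sg_add hE, Nat.add_mod_right]; ring

lemma Ye_add {E : ℕ} (hE : 0 < E) (Y : ℕ → ℝ) (n : ℕ) : Ye E Y (n + E) = - Ye E Y n := by
  unfold Ye; rw [sg_add hE, Nat.add_mod_right]; ring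

lemma Ye_cases {E : ℕ} (hE : 0 < E) {Y : ℕ → ℝ} (hY1 : ∀ i ≤ E, Y i = 1 ∨ Y i = -1) (n : ℕ) :
    Ye E Y n = 1 ∨ Ye E Y n = -1 := by
  unfold Ye
  rcases sg_cases E n with h | h <;> rcases hY1 (n % E) (Nat.mod_lt n hE).le with h' | h' <;>
    rw [h, h'] <;> norm_num

/-- bounded steps -/
lemma F_step {E : ℕ} (hE : 0 < E) {m Y : ℕ → ℝ} (hm : ∀ c, 0 ≤ m c)
    (hm1 : ∑ c ∈ range E, m c = 1) (hY1 : ∀ i ≤ E, Y i = 1 ∨ Y i = -1)
    (hY : Y E = - Y 0) (n : ℕ) :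
    |F E m Y (n + 1) - F E m Y n| = 2 * (P E m (n + 1) - P E m n) := by
  rw [F_succ hE hY, P_succ hE hm1]
  have h0 := w_nonneg (E := E) hm n
  rcases Ye_cases hE hY1 (n + 1) with h | h <;> rw [h]
  · rw [abs_of_nonneg (by linarith)]; ring
  · rw [abs_of_nonpos (by linarith)]; ring

/-- a sign change -/
lemma exists_change {E : ℕ} (hE : 0 < E) (m Y : ℕ → ℝ) :
    ∃ e < E, F E m Y e * F E m Y (e + 1) ≤ 0 := by
  by_contra hcon
  push Not at hcon
  have h0 : F E m Y 0 ≠ 0 := by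
    intro h
    have := hcon 0 hE
    rw [h] at this
    simp at this
  have key : ∀ n ≤ E, 0 < F E m Y 0 * F E m Y n := by
    intro n
    induction n with
    | zero => intro _; exact mul_self_pos.2 h0
    | succ n ih =>
      intro hn
      have h1 := ih (by omega)
      have h2 := hcon n (by omega)
      have h3 : 0 < (F E m Y 0 * F E m Y n) * (F E m Y n * F E m Y (n + 1)) := mul_pos h1 h2
      have h4 : (F E m Y 0 * F E m Y n) * (F E m Y n * F E m Y (n + 1)) =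
          (F E m Y n) ^ 2 * (F E m Y 0 * F E m Y (n + 1)) := by ring
      rw [h4] at h3
      exact (pos_iff_pos_of_mul_pos h3).1 (by
        have : F E m Y n ≠ 0 := by
          intro h; rw [h] at h1; simp at h1
        positivity)
  have h1 := key E le_rfl
  have h2 : F E m Y E = - F E m Y 0 := by
    have := F_add hE m Y 0
    rwa [zero_add] at this
  rw [h2] at h1
  nlinarith [mul_self_nonneg (F E m Y 0)]

end Pool.Agent.Helper18.Loc
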