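import Mathlib

/-!
Location lemma, part 2: the kernel on the circle of length 2, McShane extension.
-/
namespace Pool.Agent.Helper18.Loc

open Finset

/-- `kap x = max 0 (1 - 2 dist (x, 2 ℤ))`. -/
noncomputable def kap (x : ℝ) : ℝ := max 0 (1 - 2 * ‖(x : AddCircle (2 : ℝ))‖)

lemma kap_nonneg (x : ℝ) : 0 ≤ kap x := le_max_left _ _

lemma norm_le_abs (x : ℝ) : ‖(x : AddCircle (2 : ℝ))‖ ≤ |x| := by
  have : ‖(QuotientAddGroup.mk x : ℝ ⧸ AddSubgroup.zmultiples (2 : ℝ))‖ ≤ ‖x‖ :=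
    QuotientAddGroup.norm_mk_le_norm
  simpa using this

lemma kap_ge (x : ℝ) : 1 - 2 * |x| ≤ kap x := by
  refine le_trans ?_ (le_max_right _ _)
  linarith [norm_le_abs x]

lemma kap_lip (x y : ℝ) : kap x ≤ kap y + 2 * |x - y| := by
  unfold kap
  have h1 : ‖(y : AddCircle (2 : ℝ))‖ ≤ ‖(x : AddCircle (2 : ℝ))‖ + |x - y| := by
    have e : (y : AddCircle (2 : ℝ)) = (x : AddCircle (2 : ℝ)) - ((x - y : ℝ) : AddCircle (2 : ℝ)) := by
      rw [← AddCircle.coe_sub]; congr 1; ring
    rw [e]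
    exact (norm_sub_le _ _).trans (by linarith [norm_le_abs (x - y)])
  refine max_le ?_ ?_
  · have := le_max_left (0 : ℝ) (1 - 2 * ‖(y : AddCircle (2 : ℝ))‖)
    positivity
  · have := le_max_right (0 : ℝ) (1 - 2 * ‖(y : AddCircle (2 : ℝ))‖)
    linarith

lemma kap_add_two (x : ℝ) : kap (x + 2) = kap x := by
  unfold kap
  rw [AddCircle.coe_add_period]

lemma kap_of_abs_le {x : ℝ} (hx : |x| ≤ 1) : kap x = max 0 (1 - 2 * |x|) := by
  unfold kap
  rw [(AddCircle.norm_coe_eq_abs_iff (p := (2 : ℝ)) (by norm_num)).2 (by simpa using hx)]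

lemma kap_add_one_of_abs_le {x : ℝ} (hx : |x| ≤ 1) : kap (x + 1) = max 0 (-(1 - 2 * |x|)) := by
  obtain ⟨h1, h2⟩ := abs_le.1 hx
  rcases le_total 0 x with h | h
  · have : x + 1 = (x - 1) + 2 := by ring
    rw [this, kap_add_two, kap_of_abs_le (by rw [abs_le]; constructor <;> linarith),
      abs_of_nonneg h, abs_of_nonpos (by linarith : x - 1 ≤ 0)]
    congr 1; ring
  · rw [kap_of_abs_le (by rw [abs_le]; constructor <;> linarith),
      abs_of_nonpos h, abs_of_nonneg (by linarith : 0 ≤ x + 1)]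
    congr 1; ring

lemma kap_sub_one_of_abs_le {x : ℝ} (hx : |x| ≤ 1) : kap (x - 1) = max 0 (-(1 - 2 * |x|)) := by
  rw [← kap_add_two (x - 1), ← kap_add_one_of_abs_le hx]
  congr 1; ring

/-- McShane extension of finitely many values -/
lemma mcshane (T : Finset ℕ) (hT : T.Nonempty) (q v : ℕ → ℝ)
    (h : ∀ i ∈ T, ∀ j ∈ T, v i ≤ v j + 2 * |q i - q j|) :
    ∃ f : ℝ → ℝ, (∀ x y, f x ≤ f y + 2 * |x - y|) ∧ ∀ i ∈ T, f (q i) = v i := by
  refine ⟨fun t => T.inf' hT (fun i => v i + 2 * |t - q i|), ?_, ?_⟩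
  · intro x y
    obtain ⟨i, hi, he⟩ := exists_mem_eq_inf' hT (fun i => v i + 2 * |y - q i|)
    change T.inf' hT (fun i => v i + 2 * |x - q i|) ≤ T.inf' hT (fun i => v i + 2 * |y - q i|) + _
    rw [he]
    refine (inf'_le _ hi).trans ?_
    have := abs_sub_le x y (q i)
    linarith
  · intro i hi
    change T.inf' hT (fun j => v j + 2 * |q i - q j|) = v i
    refine le_antisymm ?_ ?_
    · refine (inf'_le _ hi).trans ?_
      simp
    · refine le_inf' _ _ fun j hj => ?_
      exact h i hi j hj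

/-- chain version: monotone positions and bounded steps -/
lemma chain (q v : ℕ → ℝ) (N : ℕ) (h : ∀ i < N, |v (i + 1) - v i| ≤ 2 * (q (i + 1) - q i)) :
    ∀ i ≤ N, ∀ j ≤ N, v i ≤ v j + 2 * |q i - q j| := by
  have key : ∀ d i, i + d ≤ N → |v (i + d) - v i| ≤ 2 * (q (i + d) - q i) := by
    intro d
    induction d with
    | zero => intro i _; simp
    | succ d ih =>
      intro i hi
      have h1 := ih i (by omega)
      have h2 := h (i + d) (by omega)
      have h3 := abs_sub_le (v (i + (d + 1))) (v (i + d)) (v i)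
      have e : i + (d + 1) = i + d + 1 := by ring
      rw [e] at h3 ⊢
      linarith
  intro i hi j hj
  rcases le_total i j with hij | hij
  · obtain ⟨d, rfl⟩ := Nat.exists_eq_add_of_le hij
    have h1 := key d i hj
    have h2 := neg_abs_le (v (i + d) - v i)
    have h3 : 0 ≤ q (i + d) - q i := by linarith [abs_nonneg (v (i + d) - v i)]
    rw [abs_sub_comm (q i), abs_of_nonneg h3]
    linarith
  · obtain ⟨d, rfl⟩ := Nat.exists_eq_add_of_le hij
    have h1 := key d j hi
    have h2 := le_abs_self (v (j + d) - v j)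
    have h3 : 0 ≤ q (j + d) - q j := by linarith [abs_nonneg (v (j + d) - v j)]
    rw [abs_of_nonneg h3]
    linarith

end Pool.Agent.Helper18.Loc
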