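import Mathlib
import Pool.Agent.Helper46.Dense.Stmts
import Pool.Agent.Helper18.Loc.Comp
import Pool.Agent.Helper18.Loc.Kap
import Pool.Agent.Helper18.Loc.Ext

/-!
Location lemma, part 4: assembly.
-/
namespace Pool.Agent.Helper18.Loc

open Finset Pool.Agent.Helper46.Dense

/-- sign of the change at `n` (`0` if there is none) -/
noncomputable def ep (E : ℕ) (Y : ℕ → ℝ) (n : ℕ) : ℝ := (Ye E Y n - Ye E Y (n + 1)) / 2

/-- lifted position -/
noncomputable def lift (E : ℕ) (m Y : ℕ → ℝ) (n : ℕ) : ℝ := P E m n + (1 - ep E Y n) / 2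

lemma ep_add {E : ℕ} (hE : 0 < E) (Y : ℕ → ℝ) (n : ℕ) : ep E Y (n + E) = - ep E Y n := by
  unfold ep
  have : n + E + 1 = n + 1 + E := by ring
  rw [this, Ye_add hE, Ye_add hE]; ring

/-- probability on the changes in one period, dominating at the changes -/
lemma exists_mass {E : ℕ} (hE : 0 < E) {m Y : ℕ → ℝ} (hm : ∀ c, 0 ≤ m c)
    (hm1 : ∑ c ∈ range E, m c = 1) (hY1 : ∀ i ≤ E, Y i = 1 ∨ Y i = -1)
    (hY : Y E = - Y 0) :
    ∃ e < E, ∃ S : Finset ℕ, (∀ i, i ∈ S ↔ e + 1 ≤ i ∧ i ≤ e + E ∧ Ye E Y i ≠ Ye E Y (i + 1)) ∧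
      ∃ μ : ℕ → ℝ, (∀ i, 0 ≤ μ i) ∧ ∑ i ∈ S, μ i = 1 ∧
        ∀ j ∈ S, ep E Y j * F E m Y j ≤ ∑ i ∈ S, μ i * kap (lift E m Y i - lift E m Y j) := by
  classical
  obtain ⟨e, he, hch⟩ := exists_change hE m Y
  refine ⟨e, he, (Icc (e + 1) (e + E)).filter (fun i => Ye E Y i ≠ Ye E Y (i + 1)),
    fun i => by rw [mem_filter, mem_Icc, and_assoc], ?_⟩
  set S := (Icc (e + 1) (e + E)).filter (fun i => Ye E Y i ≠ Ye E Y (i + 1)) with hS
  have hstep := F_step hE hm hm1 hY1 hY
  -- the zero
  have hz : |F E m Y e| + |F E m Y (e + 1)| = 2 * (P E m (e + 1) - P E m e) := by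
    rw [← hstep e]
    rcases mul_nonpos_iff.1 hch with ⟨h1, h2⟩ | ⟨h1, h2⟩
    · rw [abs_of_nonneg h1, abs_of_nonpos h2, abs_of_nonpos (by linarith)]; ring
    · rw [abs_of_nonpos h1, abs_of_nonneg h2, abs_of_nonneg (by linarith)]; ring
  set x0 := P E m e + |F E m Y e| / 2 with hx0
  set q : ℕ → ℝ := fun i => if i = 0 then x0 else if i = E + 1 then x0 + 1 else P E m (e + i)
    with hq
  set v : ℕ → ℝ := fun i => if i = 0 then 0 else if i = E + 1 then 0 else F E m Y (e + i)
    with hv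
  have hq0 : q 0 = x0 := by simp [hq]
  have hv0 : v 0 = 0 := by simp [hv]
  have hqE : q (E + 1) = x0 + 1 := by simp [hq]
  have hvE : v (E + 1) = 0 := by simp [hv]
  have hqi : ∀ i, i ≠ 0 → i ≠ E + 1 → q i = P E m (e + i) := by
    intro i h1 h2
    simp only [hq]
    rw [if_neg h1, if_neg h2]
  have hvi : ∀ i, i ≠ 0 → i ≠ E + 1 → v i = F E m Y (e + i) := by
    intro i h1 h2
    simp only [hv]
    rw [if_neg h1, if_neg h2]
  have hqv : ∀ i < E + 1, |v (i + 1) - v i| ≤ 2 * (q (i + 1) - q i) := by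
    intro i hi
    rcases Nat.eq_zero_or_pos i with rfl | hi0
    · rw [hq0, hv0, hqi (0 + 1) (by omega) (by omega), hvi (0 + 1) (by omega) (by omega),
        zero_add, sub_zero]
      linarith
    · rcases (Nat.lt_succ_iff.1 hi).lt_or_eq with hiE | hiE
      · rw [hqi i (by omega) (by omega), hvi i (by omega) (by omega),
          hqi (i + 1) (by omega) (by omega), hvi (i + 1) (by omega) (by omega)]
        exact (hstep _).le
      · rw [hiE, hqE, hvE, hqi E (by omega) (by omega), hvi E (by omega) (by omega),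
          P_add hE, F_add hE, hx0, sub_neg_eq_add, zero_add]
        linarith
  have hqmono : ∀ d i, i + d ≤ E + 1 → q i ≤ q (i + d) := by
    intro d
    induction d with
    | zero => intro i _; simp
    | succ d ih =>
      intro i hi
      have h1 := ih i (by omega)
      have h2 := hqv (i + d) (by omega)
      have h3 := abs_nonneg (v (i + d + 1) - v (i + d))
      have e1 : i + (d + 1) = i + d + 1 := by ring
      rw [e1]
      linarith
  have hchain := chain q v (E + 1) hqv
  obtain ⟨f, hf, hfq⟩ := mcshane (range (E + 2)) ⟨0, by simp⟩ q v (by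
    intro i hi j hj
    rw [mem_range] at hi hj
    exact hchain i (by omega) j (by omega))
  have hfx0 : f x0 = 0 := by
    rw [← hq0, hfq 0 (by simp)]; simp [hv]
  have hfx1 : f (x0 + 1) = 0 := by
    rw [← hqE, hfq (E + 1) (by simp)]; simp [hv]
  -- points of S
  have hmemS : ∀ i ∈ S, e + 1 ≤ i ∧ i ≤ e + E ∧ Ye E Y i ≠ Ye E Y (i + 1) := by
    intro i hi
    rw [hS, mem_filter, mem_Icc] at hi
    exact ⟨hi.1.1, hi.1.2, hi.2⟩
  have hpt : ∀ i, e + 1 ≤ i → i ≤ e + E →
      x0 ≤ P E m i ∧ P E m i ≤ x0 + 1 ∧ f (P E m i) = F E m Y i := by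
    intro i h1 h2
    obtain ⟨d, rfl⟩ := Nat.exists_eq_add_of_le (show e ≤ i by omega)
    have e1 : q d = P E m (e + d) := hqi d (by omega) (by omega)
    have e2 : v d = F E m Y (e + d) := hvi d (by omega) (by omega)
    have h3 := hqmono d 0 (by omega)
    rw [zero_add, hq0, e1] at h3
    have h4 := hqmono (E + 1 - d) d (by omega)
    rw [show d + (E + 1 - d) = E + 1 by omega, hqE, e1] at h4
    refine ⟨h3, h4, ?_⟩
    rw [← e1, hfq d (by rw [mem_range]; omega), e2]
  have hep : ∀ i, Ye E Y i ≠ Ye E Y (i + 1) → ep E Y i = 1 ∨ ep E Y i = -1 := by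
    intro i hi
    unfold ep
    rcases Ye_cases hE hY1 i with h | h <;> rcases Ye_cases hE hY1 (i + 1) with h' | h' <;>
      rw [h, h'] at hi ⊢ <;> first | exact absurd rfl hi | norm_num
  obtain ⟨μ, hμ0, hμS, hμsum, hμ⟩ := union_claim f hf (P E m) (ep E Y)
    (fun i j => kap (lift E m Y i - lift E m Y j)) (fun i j => kap_nonneg _) (x0 + 1) x0 le_rfl
    hfx1 S.card S x0 le_rfl le_rfl (by linarith) hfx0
    (fun i hi => hep i (hmemS i hi).2.2)
    (fun i hi => ⟨(hpt i (hmemS i hi).1 (hmemS i hi).2.1).1,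
      (hpt i (hmemS i hi).1 (hmemS i hi).2.1).2.1⟩)
    (by
      intro i hi j hj hij
      have : lift E m Y i - lift E m Y j = P E m i - P E m j := by
        unfold lift; rw [hij]; ring
      rw [this]
      exact kap_ge _)
  have hSne : S.Nonempty := by
    by_contra hne
    rw [not_nonempty_iff_eq_empty] at hne
    have hconst : ∀ d ≤ E, Ye E Y (e + 1 + d) = Ye E Y (e + 1) := by
      intro d
      induction d with
      | zero => intro _; simp
      | succ d ih =>
        intro hd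
        rw [← ih (by omega)]
        by_contra hcon
        have : e + 1 + d ∈ S := by
          rw [hS, mem_filter, mem_Icc]
          refine ⟨⟨by omega, by omega⟩, fun h => hcon ?_⟩
          rw [show e + 1 + (d + 1) = e + 1 + d + 1 by ring]
          exact h.symm
        rw [hne] at this
        simp at this
    have h1 := hconst E le_rfl
    rw [Ye_add hE] at h1
    rcases Ye_cases hE hY1 (e + 1) with h | h <;> rw [h] at h1 <;> norm_num at h1
  obtain ⟨i0, hi0⟩ := hSne
  have hμsum' : ∑ i ∈ S, μ i ≤ 1 := by linarith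
  refine ⟨fun i => μ i + if i = i0 then 1 - ∑ i ∈ S, μ i else 0, ?_, ?_, ?_⟩
  · intro i
    have : 0 ≤ if i = i0 then 1 - ∑ i ∈ S, μ i else 0 := by
      split_ifs
      · linarith
      · exact le_rfl
    exact add_nonneg (hμ0 i) this
  · rw [sum_add_distrib]
    simp [hi0]
  · intro j hj
    have h1 := hμ j hj
    rw [(hpt j (hmemS j hj).1 (hmemS j hj).2.1).2.2] at h1
    refine h1.trans (sum_le_sum fun i _ => mul_le_mul_of_nonneg_right ?_ (kap_nonneg _))
    have : 0 ≤ if i = i0 then 1 - ∑ i ∈ S, μ i else 0 := by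
      split_ifs
      · linarith
      · exact le_rfl
    linarith

end Pool.Agent.Helper18.Loc
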