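import Mathlib
import Pool.Agent.Helper18.Loc.Main

/-!
Location lemma, part 5: from the changes to all points, final assembly.
-/
namespace Pool.Agent.Helper18.Loc

open Finset Pool.Agent.Helper46.Dense

/-- general walk: a 2-Lipschitz function dominating at the peaks dominates everywhere -/
lemma walk {E : ℕ} (hE : 0 < E) {m Y : ℕ → ℝ} (hm : ∀ c, 0 ≤ m c)
    (hm1 : ∑ c ∈ range E, m c = 1) (hY1 : ∀ i ≤ E, Y i = 1 ∨ Y i = -1)
    (hY : Y E = - Y 0) (H : ℝ → ℝ) (hH : ∀ x y, H x ≤ H y + 2 * |x - y|)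
    (hpeak : ∀ n ≥ E, Ye E Y n = 1 → Ye E Y (n + 1) = -1 → F E m Y n ≤ H (P E m n)) :
    ∀ n ≥ 2 * E, F E m Y n ≤ H (P E m n) := by
  have hw := fun n => w_nonneg (E := E) hm n
  have hYc := fun n => Ye_cases hE hY1 n
  -- one step to the left / right
  have hR : ∀ n, Ye E Y (n + 1) = 1 → F E m Y (n + 1) ≤ H (P E m (n + 1)) →
      F E m Y n ≤ H (P E m n) := by
    intro n h1 h2
    have h3 := F_succ hE hY (m := m) n
    have h4 := hH (P E m (n + 1)) (P E m n)
    rw [P_succ hE hm1, add_sub_cancel_left, abs_of_nonneg (hw n)] at h4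
    rw [h1] at h3
    rw [P_succ hE hm1] at h2
    linarith
  have hL : ∀ n, Ye E Y (n + 1) = -1 → F E m Y n ≤ H (P E m n) →
      F E m Y (n + 1) ≤ H (P E m (n + 1)) := by
    intro n h1 h2
    have h3 := F_succ hE hY (m := m) n
    have h4 := hH (P E m n) (P E m (n + 1))
    rw [P_succ hE hm1, show P E m n - (P E m n + w E m n) = - w E m n by ring, abs_neg,
      abs_of_nonneg (hw n)] at h4
    rw [h1] at h3
    rw [P_succ hE hm1]
    linarith
  have right : ∀ d, ∀ n ≥ E, Ye E Y (n + 1) = 1 → Ye E Y (n + 1 + d) = -1 →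
      F E m Y n ≤ H (P E m n) := by
    intro d
    induction d with
    | zero => intro n _ h1 h2; rw [add_zero, h1] at h2; norm_num at h2
    | succ d ih =>
      intro n hn h1 h2
      refine hR n h1 ?_
      rcases hYc (n + 1 + 1) with h | h
      · refine ih (n + 1) (by omega) h ?_
        rw [← h2]; congr 1; ring
      · exact hpeak (n + 1) (by omega) h1 h
  have left : ∀ d, ∀ n ≥ E, Ye E Y n = 1 → Ye E Y (n + d) = -1 →
      F E m Y (n + d) ≤ H (P E m (n + d)) := by
    intro d
    induction d with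
    | zero => intro n _ h1 h2; rw [add_zero, h1] at h2; norm_num at h2
    | succ d ih =>
      intro n hn h1 h2
      rw [← add_assoc] at h2 ⊢
      refine hL (n + d) h2 ?_
      rcases hYc (n + d) with h | h
      · exact hpeak (n + d) (by omega) h h2
      · exact ih n hn h1 h
  intro n hn
  rcases hYc (n + 1) with h | h
  · refine right E n (by omega) h ?_
    rw [Ye_add hE, h]
  · rcases hYc n with h' | h'
    · exact hpeak n (by omega) h' h
    · have e : n - E + E = n := by omega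
      have h1 : Ye E Y (n - E) = 1 := by
        have := Ye_add hE Y (n - E)
        rw [e, h'] at this
        linarith
      have := left E (n - E) (by omega) h1 (by rw [e]; exact h')
      rwa [e] at this

lemma abs_pos_sub {E : ℕ} {m : ℕ → ℝ} (hm : ∀ c, 0 ≤ m c)
    (hm1 : ∑ c ∈ range E, m c = 1) {c g : ℕ} (hc : c < E) (hg : g < E) :
    |pos m c - pos m g| ≤ 1 := by
  have key : ∀ c < E, 0 ≤ pos m c ∧ pos m c ≤ 1 := by
    intro c hc
    have h1 : 0 ≤ ∑ i ∈ range c, m i := sum_nonneg fun i _ => hm i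
    have h2 : ∑ i ∈ range (c + 1), m i ≤ ∑ i ∈ range E, m i :=
      sum_le_sum_of_subset_of_nonneg (range_subset_range.2 (by omega)) fun i _ _ => hm i
    rw [hm1, sum_range_succ] at h2
    unfold pos
    constructor <;> linarith [hm c]
  have h1 := key c hc
  have h2 := key g hg
  rw [abs_le]; constructor <;> linarith

/-- the kernel in the original coordinates -/
lemma kernel_eq {E : ℕ} (hE : 0 < E) {m Y : ℕ → ℝ} (hm : ∀ c, 0 ≤ m c)
    (hm1 : ∑ c ∈ range E, m c = 1) (hY1 : ∀ i ≤ E, Y i = 1 ∨ Y i = -1)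
    (hY : Y E = - Y 0) (i : ℕ) (hi : i < 2 * E) (hflip : Ye E Y i ≠ Ye E Y (i + 1))
    (g : ℕ) (hg : g < E) (σ : ℝ) (hσ : σ = 1 ∨ σ = -1) :
    kap (lift E m Y i - (pos m g + (1 - σ) / 2)) =
      max 0 (σ * ((Y (i % E) - Y (i % E + 1)) / 2) * (1 - 2 * |pos m (i % E) - pos m g|)) := by
  have hc : i % E < E := Nat.mod_lt i hE
  have hx := abs_pos_sub hm hm1 hc hg
  have hq : i / E = 0 ∨ i / E = 1 := by
    have : i / E < 2 := Nat.div_lt_of_lt_mul (by rwa [mul_comm] at hi)
    generalize i / E = q at this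
    omega
  have hep : ep E Y i = sg E i * ((Y (i % E) - Y (i % E + 1)) / 2) := by
    unfold ep
    rw [Ye_succ hE hY]
    unfold Ye
    ring
  have hε : (Y (i % E) - Y (i % E + 1)) / 2 = 1 ∨ (Y (i % E) - Y (i % E + 1)) / 2 = -1 := by
    rw [Ye_succ hE hY] at hflip
    unfold Ye at hflip
    have hne : Y (i % E) ≠ Y (i % E + 1) := fun h => hflip (by rw [h])
    rcases hY1 (i % E) hc.le with h | h <;> rcases hY1 (i % E + 1) hc with h' | h' <;>
      rw [h, h'] at hne ⊢ <;> first | exact absurd rfl hne | norm_num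
  set ε := (Y (i % E) - Y (i % E + 1)) / 2 with hεd
  set x := pos m (i % E) - pos m g with hxd
  unfold lift
  rw [hep]
  unfold P sg
  rcases hq with hq | hq <;> rw [hq] <;> rcases hε with h | h <;> rcases hσ with hs | hs <;>
    rw [h, hs]
  · rw [show pos m (i % E) + ((0 : ℕ) : ℝ) + (1 - (-1 : ℝ) ^ 0 * 1) / 2 -
      (pos m g + (1 - 1) / 2) = x by rw [hxd]; push_cast; ring, kap_of_abs_le hx]
    congr 1; ring
  · rw [show pos m (i % E) + ((0 : ℕ) : ℝ) + (1 - (-1 : ℝ) ^ 0 * 1) / 2 -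
      (pos m g + (1 - -1) / 2) = x - 1 by rw [hxd]; push_cast; ring, kap_sub_one_of_abs_le hx]
    congr 1; ring
  · rw [show pos m (i % E) + ((0 : ℕ) : ℝ) + (1 - (-1 : ℝ) ^ 0 * -1) / 2 -
      (pos m g + (1 - 1) / 2) = x + 1 by rw [hxd]; push_cast; ring, kap_add_one_of_abs_le hx]
    congr 1; ring
  · rw [show pos m (i % E) + ((0 : ℕ) : ℝ) + (1 - (-1 : ℝ) ^ 0 * -1) / 2 -
      (pos m g + (1 - -1) / 2) = x by rw [hxd]; push_cast; ring, kap_of_abs_le hx]
    congr 1; ring
  · rw [show pos m (i % E) + ((1 : ℕ) : ℝ) + (1 - (-1 : ℝ) ^ 1 * 1) / 2 -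
      (pos m g + (1 - 1) / 2) = x + 2 by rw [hxd]; push_cast; ring, kap_add_two,
      kap_of_abs_le hx]
    congr 1; ring
  · rw [show pos m (i % E) + ((1 : ℕ) : ℝ) + (1 - (-1 : ℝ) ^ 1 * 1) / 2 -
      (pos m g + (1 - -1) / 2) = x + 1 by rw [hxd]; push_cast; ring, kap_add_one_of_abs_le hx]
    congr 1; ring
  · rw [show pos m (i % E) + ((1 : ℕ) : ℝ) + (1 - (-1 : ℝ) ^ 1 * -1) / 2 -
      (pos m g + (1 - 1) / 2) = x + 1 by rw [hxd]; push_cast; ring, kap_add_one_of_abs_le hx]
    congr 1; ring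
  · rw [show pos m (i % E) + ((1 : ℕ) : ℝ) + (1 - (-1 : ℝ) ^ 1 * -1) / 2 -
      (pos m g + (1 - -1) / 2) = x by rw [hxd]; push_cast; ring, kap_of_abs_le hx]
    congr 1; ring

theorem loc : LocStmt := by
  classical
  intro E m Y hE hm hm1 hY1 hY
  obtain ⟨e, he, S, hS, μ, hμ0, hμ1, hμ⟩ := exists_mass hE hm hm1 hY1 hY
  set H : ℝ → ℝ := fun t => ∑ i ∈ S, μ i * kap (lift E m Y i - t) with hHd
  have hH : ∀ x y, H x ≤ H y + 2 * |x - y| := by
    intro x y
    have : ∀ i ∈ S, μ i * kap (lift E m Y i - x) ≤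
        μ i * kap (lift E m Y i - y) + μ i * (2 * |x - y|) := by
      intro i _
      rw [← mul_add]
      refine mul_le_mul_of_nonneg_left ?_ (hμ0 i)
      refine (kap_lip _ (lift E m Y i - y)).trans ?_
      rw [show lift E m Y i - x - (lift E m Y i - y) = y - x by ring, abs_sub_comm]
    calc H x ≤ ∑ i ∈ S, (μ i * kap (lift E m Y i - y) + μ i * (2 * |x - y|)) := sum_le_sum this
      _ = H y + 2 * |x - y| := by rw [sum_add_distrib, ← sum_mul, hμ1, one_mul]
  have hH2 : ∀ t, H (t + 2) = H t := by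
    intro t
    refine sum_congr rfl fun i _ => ?_
    rw [← kap_add_two (lift E m Y i - (t + 2))]
    congr 2; ring
  have hep : ∀ i, Ye E Y i ≠ Ye E Y (i + 1) → ep E Y i = 1 ∨ ep E Y i = -1 := by
    intro i hi
    unfold ep
    rcases Ye_cases hE hY1 i with h | h <;> rcases Ye_cases hE hY1 (i + 1) with h' | h' <;>
      rw [h, h'] at hi ⊢ <;> first | exact absurd rfl hi | norm_num
  -- all changes
  have hall : ∀ n, e + 1 ≤ n → Ye E Y n ≠ Ye E Y (n + 1) →
      ep E Y n * F E m Y n ≤ H (lift E m Y n) := by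
    intro n
    induction n using Nat.strong_induction_on with
    | _ n ih =>
      intro hn hf
      by_cases hle : n ≤ e + E
      · exact hμ n ((hS n).2 ⟨hn, hle, hf⟩)
      · push Not at hle
        have e0 : n = n - E + E := by omega
        have hf' : Ye E Y (n - E) ≠ Ye E Y (n - E + 1) := by
          intro h
          apply hf
          rw [e0, show n - E + E + 1 = n - E + 1 + E by ring, Ye_add hE, Ye_add hE, h]
        have h1 := ih (n - E) (by omega) (by omega) hf'
        rw [e0, ep_add hE, F_add hE]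
        have h2 : lift E m Y (n - E + E) = lift E m Y (n - E) + 1 + ep E Y (n - E) := by
          unfold lift
          rw [P_add hE, ep_add hE]; ring
        rw [h2]
        rcases hep (n - E) hf' with h | h
        · rw [h] at h1 ⊢
          rw [show lift E m Y (n - E) + 1 + 1 = lift E m Y (n - E) + 2 by ring, hH2]
          linarith
        · rw [h] at h1 ⊢
          rw [show lift E m Y (n - E) + 1 + -1 = lift E m Y (n - E) by ring]
          linarith
  have hwalk := walk hE hm hm1 hY1 hY H hH (by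
    intro n hn h1 h2
    have hf : Ye E Y n ≠ Ye E Y (n + 1) := by rw [h1, h2]; norm_num
    have h3 := hall n (by omega) hf
    have h4 : ep E Y n = 1 := by unfold ep; rw [h1, h2]; norm_num
    have h5 : lift E m Y n = P E m n := by unfold lift; rw [h4]; ring
    rw [h4, h5] at h3
    linarith)
  have htest : ∀ g < E, ∀ σ : ℝ, (σ = 1 ∨ σ = -1) →
      σ * corr E m Y g ≤ H (pos m g + (1 - σ) / 2) := by
    intro g hg σ hσ
    have hF0 : F E m Y g = corr E m Y g := by
      unfold F sg
      rw [Nat.mod_eq_of_lt hg, Nat.div_eq_of_lt hg]; ring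
    have hP0 : P E m g = pos m g := by
      unfold P
      rw [Nat.mod_eq_of_lt hg, Nat.div_eq_of_lt hg]; simp
    rcases hσ with rfl | rfl
    · have h := hwalk (g + E + E) (by omega)
      rw [F_add hE, F_add hE, P_add hE, P_add hE, hF0, hP0,
        show pos m g + 1 + 1 = pos m g + 2 by ring, hH2] at h
      rw [show pos m g + (1 - 1) / 2 = pos m g by ring]
      linarith
    · have h := hwalk (g + E + E + E) (by omega)
      rw [F_add hE, F_add hE, F_add hE, P_add hE, P_add hE, P_add hE, hF0, hP0,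
        show pos m g + 1 + 1 + 1 = (pos m g + 1) + 2 by ring, hH2] at h
      rw [show pos m g + (1 - -1) / 2 = pos m g + 1 by ring]
      linarith
  have hlt : ∀ i ∈ S, i < 2 * E := by
    intro i hi
    have := (hS i).1 hi
    omega
  have hflip : ∀ i ∈ S, Ye E Y i ≠ Ye E Y (i + 1) := fun i hi => ((hS i).1 hi).2.2
  refine ⟨fun c => ∑ i ∈ S with i % E = c, μ i, ?_, ?_, ?_, ?_⟩
  · intro c
    exact sum_nonneg fun i _ => hμ0 i
  · intro c hc hYc
    refine sum_eq_zero fun i hi => ?_
    exfalso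
    obtain ⟨hiS, hic⟩ := mem_filter.1 hi
    apply hflip i hiS
    rw [Ye_succ hE hY]
    unfold Ye
    rw [hic, hYc]
  · rw [sum_fiberwise_of_maps_to (fun i _ => mem_range.2 (Nat.mod_lt i hE)), hμ1]
  · intro g hg σ hσ
    refine (htest g hg σ hσ).trans (le_of_eq ?_)
    rw [hHd]
    simp only
    rw [← sum_fiberwise_of_maps_to (s := S) (t := range E) (g := fun i => i % E)
      (fun i _ => mem_range.2 (Nat.mod_lt i hE))]
    refine sum_congr rfl fun c _ => ?_
    rw [sum_mul]
    refine sum_congr rfl fun i hi => ?_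
    obtain ⟨hiS, hic⟩ := mem_filter.1 hi
    rw [kernel_eq hE hm hm1 hY1 hY i (hlt i hiS) (hflip i hiS) g hg σ hσ, hic]

end Pool.Agent.Helper18.Loc
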